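import Mathlib
import Pool.Agent.Helper126.Sus.Forc
import Pool.Agent.W876.Two.Gen
import Pool.Agent.W876.Sel.Lang
import Pool.Agent.W876.Sel.Main

/-!
# The never-selectively-(a) cardinal can be above the dominating number

Some forcing notion with the countable chain condition forces that the dominating number is `ℵ₁`
and that for every cardinal `κ ≤ ℵ₁` some almost disjoint family of size `κ` is selectively (a),
so that `𝔡 = ℵ₁ < 𝔳_ssa`.
-/

namespace Pool.Agent.Results.MP_32e568_lc.NeverSelectivelyAAboveD

open Cardinal Pool.Agent.Helper126.Sus.Forc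

open Pool.Agent.W876.Two.Gen (CardinalsPreserved)

open Pool.Agent.W876.Sel

theorem result : ∃ (P : Type) (_ : Preorder P), Nonempty P ∧ CCC P ∧ ∀ p : P,
    p ∈ CardinalsPreserved P ∧
    (p ∈ fex fun g : K1 → ℕ → ℕ → Set P => IsDominating g) ∧
    ∀ K : Type, #K ≤ ℵ_ 1 →
      p ∈ fex fun A : K → ℕ → Set P => fand (IsAD A) (SelectivelyA A) :=
  exists_forcing

end Pool.Agent.Results.MP_32e568_lc.NeverSelectivelyAAboveD
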